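import Pool.Agent.K3h46.HP.Nil
import Pool.Agent.K3h46.HP.Alt
import Pool.Agent.K3h46.HP.Comb
import Pool.Agent.K3h4.HP.Nil1
import Pool.Agent.K3h90.HP.Nil2
import Pool.Agent.K3h17.HP.PH
import Pool.Agent.K3h91.HP.Ptr
import Pool.Agent.K3h91.HP.Alg
import Pool.Agent.K3h33.HP.Htr
import Pool.Agent.K3h66.HP.Assoc
import Pool.Agent.K3h58.HP.Trans
import Pool.Agent.K3h79.HP.Row
import Pool.Agent.K3h27.HP.Conv
import Pool.Agent.K3h62.HP.PolE
import Pool.Agent.K3h46.HP.Stm5
import Pool.Agent.K3h84.AA.AddAlt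
import Pool.Agent.K3h13.HP.AddSym
import Pool.Agent.K3h25.HP.Trp

/-!
# Kimura finite-dimensionality and decompositions of the diagonal

A smooth projective variety `X` is Kimura finite-dimensional if and only if the class of the diagonal
is a sum of finitely many correspondences `γ` (no projectors) for each of which `Λ^N(γ) = 0` or
`Sym^N(γ) = 0` as a cycle on `X^(2N)` for some `N`; the `γ` of each of the two kinds form a two-sided
ideal.  For a symmetric `β` the cycle `Sym^N(β)` vanishes for some `N` if and only if some linear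
combination, with non-zero sum of coefficients, of the products of the pullbacks of `β` along the
perfect matchings of the factors of some `X^(2k)` is smash-nilpotent.

If `Sym^N(β) = 0`, then `β` is algebraic over `ℚ` in the ring of correspondences, some polynomial in
`β` is a projector `p`, `β` is nilpotent on the complement of `p`, and `(X, p)` is oddly
finite-dimensional.  If `β` is homologous to a projector, then `p` is homologous to `β`.
-/

set_option autoImplicit false

open Finset Pool.Agent.K3h46.HP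

namespace Pool.Agent.Results.MP_868bb7_ag.DecompositionOfTheDiagonal

/-- some symmetric power of the correspondence `w` vanishes -/
def OddlyFinite (X : Powers) (w : X.A 2) : Prop := ∃ N : ℕ, X.symPower w N = 0

/-- some exterior power of the correspondence `w` vanishes -/
def EvenlyFinite (X : Powers) (w : X.A 2) : Prop := ∃ N : ℕ, X.altPower w N = 0

/-- `S` is closed under composition, e.g. `S = A^d(X × X)`, the correspondences of degree `0` -/
def ClosedUnderComp (X : Powers) (S : Submodule ℚ (X.A 2)) : Prop :=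
  ∀ a ∈ S, ∀ b ∈ S, X.comp a b ∈ S

/-- `X` is Kimura finite-dimensional (`D` is the class of the diagonal, `S = A^d(X × X)`): the motive
of `X` is the sum of `(X, D - p)` and `(X, p)` for a projector `p` in `S`, some `Λ^N (X, D - p)` and
some `Sym^N (X, p)` being zero. -/
def KimuraFinite (X : Powers) (S : Submodule ℚ (X.A 2)) (D : X.A 2) : Prop :=
  ∃ p ∈ S, X.comp p p = p ∧ EvenlyFinite X (D - p) ∧ OddlyFinite X p

/-- some exterior product `z × ... × z` vanishes -/
def SmashNilpotent (X : Powers) {a : ℕ} (z : X.A a) : Prop := ∃ m : ℕ, X.extPower z m = 0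

/-- a linear combination, with non-zero sum of coefficients, of the products of the pullbacks of `w`
along the perfect matchings of the factors of some `X^(2k)` is smash-nilpotent -/
def MatchingNilpotent (X : Powers) (w : X.A 2) : Prop :=
  ∃ (k : ℕ) (c : (Fin k × Fin 2 ≃ Fin (k * 2)) → ℚ), ∑ e, c e ≠ 0 ∧ SmashNilpotent X (X.comb w k c)

/-- `p` is a linear combination of powers of `b` -/
def IsPolynomialIn (X : Powers) (b p : X.A 2) : Prop :=
  ∃ (M : ℕ) (c : ℕ → ℚ), p = ∑ m ∈ Finset.range M, c m • X.iter b m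

/-- (1): the correspondences some exterior power of which vanishes are closed under addition and
under composition with all correspondences on both sides, and so are those some symmetric power of
which vanishes -/
def Ideals (X : Powers) : Prop :=
  ((∀ a b : X.A 2, EvenlyFinite X a → EvenlyFinite X b → EvenlyFinite X (a + b)) ∧
    ∀ a b : X.A 2, EvenlyFinite X a → EvenlyFinite X (X.comp a b) ∧ EvenlyFinite X (X.comp b a)) ∧
  ((∀ a b : X.A 2, OddlyFinite X a → OddlyFinite X b → OddlyFinite X (a + b)) ∧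
    ∀ a b : X.A 2, OddlyFinite X a → OddlyFinite X (X.comp a b) ∧ OddlyFinite X (X.comp b a))

/-- (1), continued: `X` is Kimura finite-dimensional if and only if the class of the diagonal is a sum
of finitely many correspondences (in `S`) each of which has a vanishing exterior or symmetric power -/
def SumCriterion (X : Powers) (D : X.A 2) : Prop :=
  ∀ S : Submodule ℚ (X.A 2), ClosedUnderComp X S → D ∈ S →
    (KimuraFinite X S D ↔ ∃ (s : ℕ) (γ : Fin s → X.A 2), D = ∑ i, γ i ∧
      ∀ i, γ i ∈ S ∧ (EvenlyFinite X (γ i) ∨ OddlyFinite X (γ i)))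

/-- (2) -/
def MatchingCriterion (X : Powers) : Prop :=
  ∀ β : X.A 2, X.pull ![1, 0] β = β → (OddlyFinite X β ↔ MatchingNilpotent X β)

/-- (3) -/
def ProjectorExists (X : Powers) : Prop :=
  ∀ β : X.A 2, OddlyFinite X β → ∃ p : X.A 2, IsPolynomialIn X β p ∧ X.comp p p = p ∧
    OddlyFinite X p ∧ (∃ a, X.comp (X.iter β a) p = X.iter β a) ∧
    (X.pull ![1, 0] β = β → X.pull ![1, 0] p = p) ∧
    ∀ (H : Powers) (c : Powers.Hom X H), H.comp (c.map 2 β) (c.map 2 β) = c.map 2 β →
      c.map 2 p = c.map 2 β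

/-- (4) -/
def NilpotenceCriterion (X : Powers) : Prop :=
  ∀ β : X.A 2, X.pull ![1, 0] β = β → OddlyFinite X β → (∀ m, X.tr (X.iter β m) = 0) →
    ∃ a, X.iter β a = 0

/-- (5) -/
def OneCycle (X : Powers) : Prop :=
  ∀ β : X.A 2, X.pull ![1, 0] β = β → ∀ (n : ℕ) (H : Powers) (c : Powers.Hom X H),
    Nontrivial (H.A 0) → H.IsProjector (c.map 2 β) (-(2 * n : ℕ)) → OddlyFinite H (c.map 2 β) →
      c.map ((n + 1) * 2) (X.selfPower β (n + 1)) = 0 ∧
      (SmashNilpotent X (X.selfPower β (n + 1)) → ∃ p : X.A 2, IsPolynomialIn X β p ∧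
        (∃ a, X.comp (X.iter β a) p = X.iter β a) ∧ X.IsProjector p (-(2 * n : ℕ)) ∧
        X.symPower p (2 * n + 1) = 0 ∧ c.map 2 p = c.map 2 β)

theorem zero_comp (X : Powers) (a : X.A 2) : X.comp 0 a = 0 := by
  have := smul_comp X 0 0 a
  rwa [zero_smul, zero_smul] at this

theorem evenlyFinite_zero (X : Powers) : EvenlyFinite X 0 := by
  refine ⟨1, ?_⟩
  unfold Powers.altPower Powers.edge
  simp

theorem oddlyFinite_zero (X : Powers) : OddlyFinite X 0 := by
  refine ⟨1, ?_⟩
  unfold Powers.symPower Powers.edge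
  simp

theorem split (X : Powers) (S : Submodule ℚ (X.A 2))
    (h1 : ∀ a b : X.A 2, EvenlyFinite X a → EvenlyFinite X b → EvenlyFinite X (a + b))
    (h2 : ∀ a b : X.A 2, OddlyFinite X a → OddlyFinite X b → OddlyFinite X (a + b)) (s : ℕ)
    (γ : Fin s → X.A 2) (h : ∀ i, γ i ∈ S ∧ (EvenlyFinite X (γ i) ∨ OddlyFinite X (γ i))) :
    ∃ α β : X.A 2, ∑ i, γ i = α + β ∧ β ∈ S ∧ EvenlyFinite X α ∧ OddlyFinite X β := by
  induction s with
  | zero => exact ⟨0, 0, by simp, S.zero_mem, evenlyFinite_zero X, oddlyFinite_zero X⟩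
  | succ s ih =>
    obtain ⟨α, β, e, hβS, hα, hβ⟩ := ih (fun i => γ i.castSucc) (fun i => h _)
    rw [Fin.sum_univ_castSucc, e]
    rcases h (Fin.last s) with ⟨h4, h3 | h3⟩
    · exact ⟨α + γ (Fin.last s), β, by abel, hβS, h1 _ _ hα h3, hβ⟩
    · exact ⟨α, β + γ (Fin.last s), by abel, S.add_mem hβS h4, hα, h2 _ _ hβ h3⟩

theorem iter_mem (X : Powers) (S : Submodule ℚ (X.A 2)) (hS : ClosedUnderComp X S) {b : X.A 2}
    (hb : b ∈ S) (m : ℕ) : X.iter b m ∈ S := by
  induction m with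
  | zero => exact hb
  | succ m ih => exact hS _ ih _ hb

theorem comp_transpose (hTr : StmTrans) (X : Powers) (a b : X.A 2) :
    X.comp b a = X.pull ![1, 0] (X.comp (X.pull ![1, 0] a) (X.pull ![1, 0] b)) := by
  have inv : ∀ x : X.A 2, X.pull ![1, 0] (X.pull ![1, 0] x) = x := by
    intro x
    rw [X.pull_comp]
    conv_rhs => rw [← X.pull_id 2 x]
    congr 1
    congr 1
    funext i
    fin_cases i <;> rfl
  rw [hTr, inv, inv]

theorem ideals (hTr : StmTrans) (hC : StmConv) (h1 : StmAddAlt) (h2 : StmAddSym) (h3 : StmTrp)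
    (X : Powers) : Ideals X := by
  have inv : ∀ x : X.A 2, X.pull ![1, 0] (X.pull ![1, 0] x) = x := by
    intro x
    rw [X.pull_comp]
    conv_rhs => rw [← X.pull_id 2 x]
    congr 1
    congr 1
    funext i
    fin_cases i <;> rfl
  refine ⟨⟨?_, ?_⟩, ⟨?_, ?_⟩⟩
  · rintro a b ⟨M, ha⟩ ⟨N, hb⟩
    exact ⟨_, h1 X a b M N ha hb⟩
  · rintro a b ⟨N, ha⟩
    refine ⟨⟨N, altPower_comp X a b N ha⟩, ⟨N, ?_⟩⟩
    rw [comp_transpose hTr]
    exact (h3 X _ N).1 (altPower_comp X _ _ N ((h3 X a N).1 ha))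
  · rintro a b ⟨M, ha⟩ ⟨N, hb⟩
    exact ⟨_, h2 X a b M N ha hb⟩
  · rintro a b ⟨N, ha⟩
    refine ⟨⟨N, hC X a b N ha⟩, ⟨N, ?_⟩⟩
    rw [comp_transpose hTr]
    exact (h3 X _ N).2 (hC X _ _ N ((h3 X a N).2 ha))

theorem main (h1 : StmAddAlt) (h2 : StmAddSym) (h3 : StmTrp) (X : Powers) (hF : X.Fubini)
    (hP : X.PointRing) (D : X.A 2) (hD : IsDiagonal X D) : Ideals X ∧ SumCriterion X D ∧
      MatchingCriterion X ∧ ProjectorExists X ∧ NilpotenceCriterion X ∧ OneCycle X := by
  have hN : StmNil := nil Pool.Agent.K3h4.HP.t_Nil1 Pool.Agent.K3h90.HP.t_Nil2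
  have hH : StmPH := Pool.Agent.K3h17.HP.t_PH
  have hPt : StmPTR := Pool.Agent.K3h91.HP.t_PTR
  have hT : StmHTR := Pool.Agent.K3h33.HP.t_HTR
  have hA : StmAssoc := Pool.Agent.K3h66.HP.t_Assoc
  have hTr : StmTrans := Pool.Agent.K3h58.HP.t_Trans
  have hR : StmRow := Pool.Agent.K3h79.HP.t_Row
  have hC : StmConv := Pool.Agent.K3h27.HP.t_Conv
  have hAlg : StmAlg := Pool.Agent.K3h91.HP.t_Alg
  have hE : StmPolE := Pool.Agent.K3h62.HP.t_PolE
  -- positive exponent
  have pos : ∀ β : X.A 2, OddlyFinite X β → ∃ N, X.symPower β (N + 1) = 0 := by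
    rintro β ⟨N, h⟩
    rcases N with _ | N
    · rw [symPower_zero] at h
      exact ⟨0, eq_zero_of_zero X h _⟩
    · exact ⟨N, h⟩
  have matching : ∀ β : X.A 2, X.pull ![1, 0] β = β → MatchingNilpotent X β →
      OddlyFinite X β := by
    rintro β hs ⟨k, c, hc, m, h⟩
    exact ⟨_, hN X β hs _ (comb_extPower X β k c hc m h) (3 * (m * k)) (by omega)⟩
  have extract : ProjectorExists X := by
    intro β hβ
    obtain ⟨N, h⟩ := pos β hβ
    obtain ⟨f, h1, ⟨a, h3⟩, h4⟩ := exists_projector X hA hR hC hAlg hE hF hP h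
    exact ⟨ev X β f, ⟨_, _, ev_eq_sum X β f⟩, h1, ⟨_, h4⟩, ⟨a, h3⟩,
      fun hs => ev_symm X hA hTr hF hs f, fun H c hc => map_ev_of_idem c h3 hc⟩
  have hI : Ideals X := ideals hTr hC h1 h2 h3 X
  refine ⟨hI, fun S hS hDS => ⟨?_, ?_⟩, fun β hs => ⟨?_, matching β hs⟩, extract, ?_, ?_⟩
  · rintro ⟨p, hp, -, h2, h3⟩
    refine ⟨2, ![D - p, p], by simp, fun i => ?_⟩
    fin_cases i
    · exact ⟨S.sub_mem hDS hp, Or.inl h2⟩
    · exact ⟨hp, Or.inr h3⟩
  · rintro ⟨s, γ, hγ, hs⟩
    obtain ⟨α, β, e, hβS, ⟨N, hα⟩, hβ⟩ := split X S hI.1.1 hI.2.1 s γ hs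
    have hαβ : D = α + β := hγ.trans e
    obtain ⟨p, ⟨M, c, hc⟩, h1, h2, ⟨a, h3⟩, -, -⟩ := extract β hβ
    have hpS : p ∈ S := by
      rw [hc]
      exact S.sum_mem fun m _ => S.smul_mem _ (iter_mem X S hS hβS m)
    refine ⟨p, hpS, h1, ⟨N, ?_⟩, h2⟩
    rw [complement X hA hF hD h3]
    have h4 : D - β = α := by rw [hαβ]; abel
    rw [h4]
    exact altPower_comp X α _ N hα
  · rintro ⟨N, h⟩
    refine ⟨N, fun _ => 1, ?_, 1, ?_⟩
    · have : Nonempty (Fin N × Fin 2 ≃ Fin (N * 2)) := ⟨finProdFinEquiv⟩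
      rw [Finset.sum_const, Finset.card_univ, nsmul_eq_mul, mul_one]
      exact_mod_cast Fintype.card_ne_zero
    · rw [← selfPower_eq_comb, hH X β N h]
      unfold Powers.extPower
      simp
  · intro β hs hβ h0
    obtain ⟨N, h⟩ := pos β hβ
    exact nilpotent_of_traces X hA hTr hR hC hAlg hE hPt hF hP hs h h0
  · intro β hs n H c hH0 hpr hodd
    obtain ⟨-, -, b3⟩ := tfae H hN hH hPt hT hpr
    have b4 : H.selfPower (c.map 2 β) (n + 1) = 0 := by
      obtain ⟨N, h⟩ := hodd
      exact b3.2 (symPower_down H hPt hpr N h)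
    refine ⟨by rw [map_selfPower, b4], fun hsm => ?_⟩
    have hof : OddlyFinite X β := by
      refine matching β hs ⟨n + 1, fun _ => 1, ?_, ?_⟩
      · have : Nonempty (Fin (n + 1) × Fin 2 ≃ Fin ((n + 1) * 2)) := ⟨finProdFinEquiv⟩
        rw [Finset.sum_const, Finset.card_univ, nsmul_eq_mul, mul_one]
        exact_mod_cast Fintype.card_ne_zero
      · rw [← selfPower_eq_comb]
        exact hsm
    obtain ⟨p, h1, h2, ⟨N, h3⟩, h10, h4, h5⟩ := extract β hof
    have h6 := h5 H c (by rw [← comp_eq_of_symm H hpr.symm, hpr.idem])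
    have h7 : X.IsProjector p (-(2 * n : ℕ)) := by
      refine ⟨h4 hs, by rw [comp_eq_of_symm X (h4 hs), h2], ?_⟩
      obtain ⟨q, hq⟩ := hP (X.push 0 (X.pull ![0, 0] p))
      have h8 := congrArg (c.map 0) hq
      rw [c.map_push, c.map_pull, h6, hpr.trace, AlgHom.commutes] at h8
      have h9 := (algebraMap ℚ (H.A 0)).injective h8
      rw [hq, ← h9]
    exact ⟨p, h1, h10, h7, symPower_down X hPt h7 N h3, h6⟩

theorem result (X : Powers) (hF : X.Fubini) (hP : X.PointRing) (D : X.A 2)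
    (hD : IsDiagonal X D) : Ideals X ∧ SumCriterion X D ∧ MatchingCriterion X ∧
      ProjectorExists X ∧ NilpotenceCriterion X ∧ OneCycle X :=
  main Pool.Agent.K3h84.AA.t_AddAlt Pool.Agent.K3h13.HP.t_AddSym Pool.Agent.K3h25.HP.t_Trp
    X hF hP D hD

end Pool.Agent.Results.MP_868bb7_ag.DecompositionOfTheDiagonal
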