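import Pool.Agent.K3h63.IQ.Final2

/-!
# If `(X × X) / G` is Kimura-finite then so is `X`

`C` is a `ℚ`-linear, idempotent complete, rigid symmetric monoidal category whose unit object has
the endomorphisms `ℚ` (`UnitQ`), with a realisation `R` in finite-dimensional super vector spaces
over a field `K` (`SuperRealisation`). For the problem: `C` is the category of Chow motives over the
complex numbers and `R` is singular cohomology.

`IsKimuraFinite M`: there is an idempotent `e` of `M` such that some exterior power of `(M, e)` and
some symmetric power of `(M, 1 - e)` vanish.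

A finite group `G` acts on `M` by `ρ`, and on the dual `Mᘁ` by the transposed inverses. `P` is the
direct summand `(M ⊗ M^∨)^G` of `M ⊗ M^∨` (`IsDiagonalInvariants`), the image of the projector
`(1 / |G|) ∑ g ⊗ (g⁻¹)^∨`.

Theorem. If `(M ⊗ M^∨)^G` is a direct summand of a Kimura-finite object then `M` is Kimura-finite.

For motives: let `G` act on the smooth projective variety `X` and diagonally on `X × ⋯ × X`, `M = h(X)`.
By Poincare duality `(M ⊗ M^∨)^G` is, up to a Tate twist, the motive of `(X × X) / G`, which is a
direct summand of the motive of `(X × ⋯ × X) / G` (`n ≥ 2` factors). So for each `n ≥ 2` the quotient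
`X^n / G` is Kimura-finite if and only if `X` is. (The quotient `X / G` itself only sees the invariant
part of `h(X)`.) For noncommutative motives, `M = U(A)`: if the dg category of `G`-equivariant
`A`-`A`-bimodules is Kimura-finite then so is `A`. The case `G = 1` is in the starting library (R905).

Proof. Write `χ` for the character of the realisation of `M`.
(1) `c = ∑ χ(g⁻¹) g` acts on the realisation of `M` with positive rational eigenvalues
`|G| m / dim`. The partial trace of a parity operator of `P` is `c` times the parity operator of `M`, up
to a factor, and the sign of its eigenvalues is a rational polynomial in it: the parity operator of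
`M` is algebraic.
(2) A homologically trivial element of the image of `ℚ[G]` in `End M` is zero: such elements form an
ideal generated by a central idempotent `z`; `z ⊗ 1` is a nilpotent idempotent on `P`, so zero, and
the coevaluation, which is `G`-invariant, gives `z = 0`. So `κ = ∑ χ(g⁻¹) g` is a unit in `End M`.
(3) A homologically trivial `f : M ⟶ M` commuting with `G` is nilpotent: `f ⊗ 1` is nilpotent on `P`, and
the partial trace of `f^k ⊗ y`, `y` a parity operator of the dual, is `f^k κ` up to a factor. So the
parity idempotent lifts to a `G`-equivariant idempotent, and one may pass to `E ⊆ M` of pure parity.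
(4) Replacing the factors of `E ⊗ ⋯ ⊗ E` one by one by `P_E = (E ⊗ E^∨)^G`: homologically trivial
endomorphisms of `E ⊗ ⋯ ⊗ E` which commute with `G × ⋯ × G` are nilpotent. Some exterior (symmetric)
power of `E` has vanishing realisation. The homologically trivial elements of the span of the finite
group generated by `G × ⋯ × G` and the permutations of the factors form an ideal generated by a
central idempotent, which commutes with `G × ⋯ × G`, so it is zero, and the power of `E` vanishes.
-/

set_option autoImplicit false

open CategoryTheory Limits MonoidalCategory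

universe v u w

namespace Pool.Agent.Results.MP_868bb7_ag.DiagonalQuotients

open Pool.Agent.Y112.SR Pool.Agent.Y112.KD Pool.Agent.R905

/-- `P` is the direct summand `(M ⊗ M^∨)^G` of `M ⊗ M^∨`, with inclusion `j` and projection `q`: the
composite `q ≫ j` is the projector `(1 / |G|) ∑ g ⊗ (g⁻¹)^∨`. -/
structure IsDiagonalInvariants {C : Type u} [Category.{v} C] [Preadditive C] [Linear ℚ C]
    [MonoidalCategory C] [RightRigidCategory C] {G : Type} [Group G] [Fintype G] {M P : C}
    (ρ : G →* End M) (j : P ⟶ M ⊗ Mᘁ) (q : M ⊗ Mᘁ ⟶ P) : Prop where
  one : j ≫ q = 𝟙 P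
  proj : q ≫ j = (Fintype.card G : ℚ)⁻¹ •
    ∑ g : G, (((ρ g : End M) : M ⟶ M) ⊗ₘ (((ρ g⁻¹ : End M) : M ⟶ M)ᘁ))

/-- Let the finite group `G` act on `M`. If `P = (M ⊗ M^∨)^G` is a direct summand of a Kimura-finite
object `T` then `M` is Kimura-finite. -/
theorem result {C : Type u} [Category.{v} C] [Preadditive C] [Linear ℚ C] [MonoidalCategory C]
    [MonoidalPreadditive C] [MonoidalLinear ℚ C] [SymmetricCategory C] [RightRigidCategory C]
    [IsIdempotentComplete C] {K : Type w} [Field K] (R : SuperRealisation C K) (hU : UnitQ C)
    {G : Type} [Group G] [Fintype G] {M P T : C} (ρ : G →* End M)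
    (j : P ⟶ M ⊗ Mᘁ) (q : M ⊗ Mᘁ ⟶ P) (hP : IsDiagonalInvariants ρ j q)
    (a : P ⟶ T) (b : T ⟶ P) (hab : a ≫ b = 𝟙 P) (hT : IsKimuraFinite T) :
    IsKimuraFinite M :=
  Pool.Agent.K3h63.IQ.final2 R hU ⟨hP.one, hP.proj⟩ a b hab hT

end Pool.Agent.Results.MP_868bb7_ag.DiagonalQuotients
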