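import Pool.Agent.K3h8.GG.SmashC
import Pool.Agent.K3h15.GG.Pdet
import Pool.Agent.K3h27.GG.Pinj
import Pool.Agent.K3h21.GG.Par
import Pool.Agent.K3h46.HP.Nil
import Pool.Agent.K3h4.HP.Nil1
import Pool.Agent.K3h90.HP.Nil2
import Pool.Agent.K3h17.HP.PH
import Pool.Agent.K3h91.HP.Ptr

/-!
# Kimura finite-dimensionality and one relation between matchings

Let `X` be a smooth projective variety of dimension `d` and `w` in `A^d(X × X)` a symmetric projector
of trace `-2n`, e.g. the projector onto the odd part `h^-(X)` of the motive of `X`, `2n` the sum of the
odd Betti numbers (for an odd-dimensional complete intersection: the diagonal minus multiples of the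
products of powers of the hyperplane class; `2n` is the middle Betti number). For each perfect
matching `m` of the `2k` factors of `X^(2k)` one has the product of the classes `p_ij^* w`, `{i, j}` in
`m`.

Theorem. For the motive `M = (X, w)` are equivalent: (1) `M` is oddly finite-dimensional; (2)
`Sym^(2n+1) M = 0`; (3) the symmetrised power `w × ... × w` (`n + 1` factors), i.e. the sum of these
products, vanishes on `X^(2n+2)`; (4) for one `k ≤ 3n + 5` these `(2k-1)!!` products are linearly
dependent modulo smash-nilpotent classes (the classes `z` such that some exterior power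
`z × ... × z` vanishes).

In other words: if `(X, w)` is not oddly finite-dimensional then these products are linearly
independent in the Chow groups of `X^(2k)`, even modulo smash-nilpotent classes, for all
`k ≤ 3n + 5`, whereas they are dependent in the cohomology for `k ≥ n + 1`.

Proof. The smash-nilpotent classes form an ideal which is stable under pullback and push-forward.
One passes to the quotient by it. Let `k` be minimal such that there is a relation. Gluing two
factors of `X^(2k)` (restriction
to a diagonal and push-forward) of a relation gives a relation on `X^(2k-2)`, which is trivial. In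
terms of the coefficients `c(m)`: for each point `x` the sum of the transpositions `(x i)` maps `c` to
`(2n + 1) c`. So, in the left ideal of functions on the symmetric group `S_(2k)` which is generated by
`sign · c`, the sum of the `(x i)` is `-(2n + 1)`. Consider the action on the words of length `2k` and a
highest weight vector in the image of this ideal which is fixed by the exchange of the first two
places. The last letter `a` in the first place and its multiplicity `j + 1` satisfy
`j - a = -(2n + 1)`, and since the weight is a partition `(a + 1) (j + 1) ≤ 2k < 3 (2n + 4)`; so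
`j = 0` or `j = 1`. If `j = 0`, the same computation for the second place gives a contradiction. If
`j = 1`, the last letter `a = 2n + 2` of the weight occurs twice in a word. The function `sign · c`
changes its sign under the exchange of the two points of a pair and is invariant under the
permutations of the pairs, so the highest weight vector comes from one in a symmetric power of an
exterior square, and the number of letters in the weight of such a vector is even (`S_PAR`): but
`a + 1 = 2n + 3` is odd. Hence `S_(2k)` acts by the sign, `c` is constant and `2k = 2n + 2`: the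
symmetrised power of `w` on `X^(2n+2)` is smash-nilpotent. By helper46's results this is equivalent to
the odd finite-dimensionality of `(X, w)`.
-/

set_option autoImplicit false

open Finset Pool.Agent.K3h46.HP Pool.Agent.K3h8.GG

namespace Pool.Agent.Results.MP_868bb7_ag.MatchingRelations

/-- `(X, w)` is oddly finite-dimensional: some symmetric power vanishes. -/
def OddlyFinite (X : Powers) (w : X.A 2) : Prop := ∃ N : ℕ, X.symPower w N = 0

/-- some exterior power `z × ... × z` vanishes -/
def SmashNilpotent (X : Powers) {a : ℕ} (z : X.A a) : Prop := ∃ m : ℕ, X.extPower z m = 0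

/-- The products of the pullbacks of `w` along the perfect matchings of the `2 k` factors of `X^(2k)`
are linearly dependent modulo smash-nilpotent classes. The coefficient `c e` of a numbering `e` of the
factors by the pairs `(i, 0)`, `(i, 1)` depends only on the matching, that is, on the set of the pairs
`{e (i, 0), e (i, 1)}`. -/
def Dependent (X : Powers) (w : X.A 2) (k : ℕ) : Prop :=
  ∃ c : (Fin k × Fin 2 ≃ Fin (k * 2)) → ℚ, OfPairs c ∧ c ≠ 0 ∧ SmashNilpotent X (X.comb w k c)

theorem result (X : Powers) (w : X.A 2) (n : ℕ) (hw : X.IsProjector w (-(2 * n : ℕ))) :
    (OddlyFinite X w ↔ X.symPower w (2 * n + 1) = 0) ∧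
    (OddlyFinite X w ↔ X.selfPower w (n + 1) = 0) ∧
    (OddlyFinite X w ↔ ∃ k ≤ 3 * n + 5, Dependent X w k) := by
  have hN : StmNil := nil Pool.Agent.K3h4.HP.t_Nil1 Pool.Agent.K3h90.HP.t_Nil2
  have hH : StmPH := Pool.Agent.K3h17.HP.t_PH
  have hP : StmPTR := Pool.Agent.K3h91.HP.t_PTR
  have hT : StmHTR := Pool.Agent.K3h33.HP.t_HTR
  obtain ⟨a1, a2, a3⟩ := tfae X hN hH hP hT hw
  refine ⟨a2, a2.trans a3.symm, ?_, ?_⟩
  · intro h
    have h1 := a3.2 (a2.1 h)
    refine ⟨n + 1, by omega, fun _ => 1, fun _ _ _ => rfl, ?_, 1, ?_⟩
    · intro h2
      exact one_ne_zero (congrFun h2 finProdFinEquiv)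
    · rw [← selfPower_eq_comb, h1]
      unfold Powers.extPower
      simp
  · rintro ⟨k, hk, c, hc, hc0, m, h⟩
    obtain ⟨m', h1⟩ := any_relation_smash (Pool.Agent.K3h21.GGpar.t_PAR
      Pool.Agent.K3h15.GG.t_PDET Pool.Agent.K3h27.GG.t_PINJ) X hw hk c hc hc0 h
    rw [selfPower_eq_comb] at h1
    have h2 := comb_extPower X w (n + 1) (fun _ => 1) (by
      have : Nonempty (Fin (n + 1) × Fin 2 ≃ Fin ((n + 1) * 2)) := ⟨finProdFinEquiv⟩
      rw [Finset.sum_const, Finset.card_univ, nsmul_eq_mul, mul_one]
      exact_mod_cast Fintype.card_ne_zero) m' h1
    exact a2.2 (a1.1 ⟨_, h2⟩)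

end Pool.Agent.Results.MP_868bb7_ag.MatchingRelations
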