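import Pool.Agent.K3h8.GG.Final

/-!
# Kimura-finiteness and linear relations between permutations

`C` is a `ℚ`-linear, idempotent complete, rigid symmetric monoidal category whose unit object has
the endomorphisms `ℚ` (`UnitQ`), with a realisation `R` in finite-dimensional super vector spaces
over a field `K` (`SuperRealisation`). For the problem: `C` is the category of Chow motives over the
complex numbers with rational coefficients and `R` is singular cohomology with its parity.

`M` is an object whose realisation has one parity: `R.par M = d • 𝟙` with `d = 1` (even) or
`d = -1` (odd), and `b = realDim R M = finrank K (R.H.obj M)` is its dimension. For example: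
`M = h(X)` for a smooth projective variety `X` without odd cohomology (a surface with `q = 0`), the
transcendental part of the motive of a surface, or the middle part `h^m(X)` of the motive of a
complete intersection `X` of dimension `m`.

`IsKimuraFinite M`: there is an idempotent `e` of `M` such that some exterior power of `(M, e)` and
some symmetric power of `(M, 1 - e)` vanish.

`permDim M n` is the dimension of `permAlg M n`, the algebra generated by the exchanges of
neighbouring factors in the endomorphisms of `M ⊗ ⋯ ⊗ M` (`n` factors), that is, of the span of the
`n!` permutations of the factors. For `M = h(X)` it is the span of the graphs of the permutations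
of `X^n` in `CH^(dim X · n)(X^n × X^n)_ℚ`.

Theorem.
(1) If `M` is Kimura-finite then the permutations of `b + 1` factors are linearly dependent.
Conversely, if the permutations of `n` factors are linearly dependent for one `n ≤ 2 b + 3` then `M` is
Kimura-finite.
(2) If `M` is Kimura-finite then `dim (permAlg M n) ≤ b ^ (2 n)` for all `n`.
(3) If `M` is not Kimura-finite then `dim (permAlg M n)` is at least `(b + 2) ^ (2 n)`, divided by the
number of multisets of `n` elements of a set of `(b + 2) ^ 2` elements, a polynomial in `n`.
(4) If `dim (permAlg M n) ≤ D β ^ n` for infinitely many `n`, with `β < (b + 2) ^ 2`, then `M` is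
Kimura-finite.

Steps of the proof. Let `I_n ⊆ ℚ[S_n]` be the relations between the permutations, twisted by the sign
if `M` is odd; they form a family of two-sided ideals which is stable under partial traces, and
`I_0 = 0`.
(a) A partial trace of `∑ u(σ) σ` is `∑_τ (b u(τ) + ∑_i u(τ (0 i))) τ`. At the first level `n + 1` at
which the ideals act nontrivially on the words of a given kind, the sum `J` of the transpositions
`(0 i)` acts as `-b` on the images.
(b) Words with `b + 1` letters: a highest weight vector `f` (for the operators which replace a
letter by a smaller one) with `J f = c f` has `c = k - a`, where `a` is the last letter which occurs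
in the place `0` and `k + 1` the multiplicity of `a`. So `k = 0` and `a = b`, and a comparison with
the Jucys-Murphy element of the next place shows that no nonzero vector of the image is fixed by the
exchange of the first two places. Hence all permutations act by their signs, `n + 1 = b + 1`, and
the sign is in `I_(b+1)`: an exterior (symmetric) power of `M` vanishes.
(c) Signed words with `b + 1` even letters and one odd letter: the same value of `J` excludes odd
letters at the first level, and (b) applies. So, if `M` is not Kimura-finite, `ℚ[S_n] / I_n` maps onto
the algebra of permutations of the `n`-th tensor power of a super vector space of dimension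
`b + 1 | 1`, whose dimension is estimated by the traces of the permutations.
(d) Words with many letters and `n ≤ 2 b + 3`: in (b) `k ≥ 1` is excluded since the weight of a highest
weight vector is a partition, with `b + k + 1` parts of size at least `k + 1`.
(e) The upper bound: the realisation is faithful on `permAlg M n` if `M` is Kimura-finite.
-/

set_option autoImplicit false

open CategoryTheory Limits MonoidalCategory
open Pool.Agent.Y112.SR Pool.Agent.Y112.KD Pool.Agent.R905 Pool.Agent.K3h8.GG

universe v u w

namespace Pool.Agent.Results.MP_868bb7_ag.PermutationRelations

theorem result {C : Type u} [Category.{v} C] [Preadditive C] [Linear ℚ C] [MonoidalCategory C]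
    [MonoidalPreadditive C] [MonoidalLinear ℚ C] [SymmetricCategory C] [RightRigidCategory C]
    [IsIdempotentComplete C] {K : Type w} [Field K] (R : SuperRealisation C K) (hU : UnitQ C)
    {M : C} {d : ℚ} (hd : d = 1 ∨ d = -1) (hM : R.par M = (d : K) • 𝟙 _) :
    (IsKimuraFinite M → permDim M (realDim R M + 1) < (realDim R M + 1).factorial) ∧
    (∀ n, n ≤ 2 * realDim R M + 3 → permDim M n < n.factorial → IsKimuraFinite M) ∧
    (IsKimuraFinite M → ∀ n, permDim M n ≤ realDim R M ^ (2 * n)) ∧
    (¬ IsKimuraFinite M → ∀ n, (realDim R M + 2) ^ (2 * n) ≤
      permDim M n * Nat.multichoose ((realDim R M + 2) ^ 2) n) ∧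
    (∀ β D : ℝ, 0 ≤ β → β < ((realDim R M : ℝ) + 2) ^ 2 →
      (∃ᶠ n : ℕ in Filter.atTop, (permDim M n : ℝ) ≤ D * β ^ n) → IsKimuraFinite M) :=
  final R hU hd hM

end Pool.Agent.Results.MP_868bb7_ag.PermutationRelations
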